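import Mathlib

open MeasureTheory Set

namespace Pool.Agent.Results.MP_33ac70_nt.Blocks

/-- The set of solutions `(a₁, …, a_k, b)` in positive integers. -/
def Sol (k : ℕ) (ρ : ℕ → ℝ) (θ : ℝ) : Set ((Fin k → ℕ) × ℕ) :=
  {p | (∀ j, 1 ≤ p.1 j) ∧ 1 ≤ p.2 ∧
    |∑ j, (p.1 j : ℝ) ^ θ - p.2| ≤
      ρ (Finset.univ.sup p.1) / ((Finset.univ.sup p.1 : ℕ) : ℝ) ^ k}

noncomputable def psi (a : ℕ) : ℝ :=
  if 6 ≤ Nat.log 256 a ∧ a < 256 ^ Nat.log 256 a + 4 ^ Nat.log 256 a then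
    1 / 4 ^ Nat.log 256 a else 0

theorem psi_nonneg (a : ℕ) : 0 ≤ psi a := by
  unfold psi; split_ifs <;> positivity

theorem not_summable : ¬ Summable psi := by
  intro h
  obtain ⟨s, hs⟩ := summable_iff_vanishing_norm.1 h 1 one_pos
  set j := s.sup id + 6 with hj
  have h4 : 4 ^ j ≤ 256 ^ j := Nat.pow_le_pow_left (by norm_num) _
  have := hs (Finset.Ico (256 ^ j) (256 ^ j + 4 ^ j)) (by
    rw [Finset.disjoint_left]
    intro a ha has
    have h1 : a ≤ s.sup id := Finset.le_sup (f := id) has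
    have h2 : j < 256 ^ j := Nat.lt_pow_self (by norm_num)
    have := (Finset.mem_Ico.1 ha).1
    omega)
  rw [Finset.sum_congr rfl (g := fun _ => (1 : ℝ) / 4 ^ j)] at this
  · simp at this
  · intro a ha
    obtain ⟨h1, h2⟩ := Finset.mem_Ico.1 ha
    have : Nat.log 256 a = j := Nat.log_eq_of_pow_le_of_lt_pow h1 (by rw [pow_succ]; omega)
    unfold psi
    rw [this, if_pos ⟨by omega, h2⟩]

def bad (j b : ℕ) : Set ℝ :=
  {θ | θ ∈ Icc (1 / 4 : ℝ) (3 / 8) ∧ |((256 : ℝ) ^ j) ^ θ - b| ≤ 2 / 4 ^ j}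

theorem pow_bounds (j : ℕ) {θ : ℝ} (h : θ ∈ Icc (1 / 4 : ℝ) (3 / 8)) :
    (4 : ℝ) ^ j ≤ ((256 : ℝ) ^ j) ^ θ ∧ ((256 : ℝ) ^ j) ^ θ ≤ 8 ^ j := by
  have h1 : (1 : ℝ) ≤ 256 ^ j := one_le_pow₀ (by norm_num)
  constructor
  · refine le_trans (le_of_eq ?_) (Real.rpow_le_rpow_of_exponent_le h1 h.1)
    rw [show (256 : ℝ) ^ j = (4 ^ j) ^ 4 by rw [← pow_mul, mul_comm, pow_mul]; norm_num,
      ← Real.rpow_natCast _ 4, ← Real.rpow_mul (by positivity)]
    norm_num
  · refine le_trans (Real.rpow_le_rpow_of_exponent_le h1 h.2) (le_of_eq ?_)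
    rw [show (256 : ℝ) ^ j = (2 ^ j) ^ 8 by rw [← pow_mul, mul_comm, pow_mul]; norm_num,
      ← Real.rpow_natCast _ 8, ← Real.rpow_mul (by positivity),
      show ((8 : ℕ) : ℝ) * (3 / 8) = (3 : ℕ) by norm_num, Real.rpow_natCast, ← pow_mul, mul_comm,
      pow_mul]
    norm_num

theorem bad_vol (j b : ℕ) (hj : 1 ≤ j) : volume (bad j b) ≤ ENNReal.ofReal (1 / 16 ^ j) := by
  have key : ∀ x ∈ bad j b, ∀ y ∈ bad j b, x ≤ y → y - x ≤ 1 / 16 ^ j := by
    intro x hx y hy hxy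
    have hT : (0 : ℝ) < 256 ^ j := by positivity
    have h1 := (pow_bounds j hx.1).1
    have h2 : ((256 : ℝ) ^ j) ^ y = ((256 : ℝ) ^ j) ^ x * ((256 : ℝ) ^ j) ^ (y - x) := by
      rw [← Real.rpow_add hT]; ring_nf
    have hl : 4 ≤ Real.log ((256 : ℝ) ^ j) := by
      rw [Real.log_pow, show (256 : ℝ) = 2 ^ 8 by norm_num, Real.log_pow]
      have := Real.log_two_gt_d9
      have hj' : (1 : ℝ) ≤ j := by exact_mod_cast hj
      push_cast; nlinarith
    have h3 : 1 + 4 * (y - x) ≤ ((256 : ℝ) ^ j) ^ (y - x) := by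
      rw [Real.rpow_def_of_pos hT]
      have := Real.add_one_le_exp (Real.log ((256 : ℝ) ^ j) * (y - x))
      nlinarith
    have h4 := (abs_le.1 hx.2).1
    have h5 := (abs_le.1 hy.2).2
    have h6 : (4 : ℝ) ^ j * (4 * (y - x)) ≤ 4 / 4 ^ j := by
      have : (4 : ℝ) / 4 ^ j = 2 / 4 ^ j + 2 / 4 ^ j := by ring
      have h7 : (4 : ℝ) ^ j * (4 * (y - x)) ≤ ((256 : ℝ) ^ j) ^ x * (4 * (y - x)) :=
        mul_le_mul_of_nonneg_right h1 (by linarith)
      have h8 : ((256 : ℝ) ^ j) ^ x * (1 + 4 * (y - x)) ≤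
          ((256 : ℝ) ^ j) ^ x * ((256 : ℝ) ^ j) ^ (y - x) :=
        mul_le_mul_of_nonneg_left h3 (by positivity)
      linarith
    rw [le_div_iff₀ (by positivity)] at h6 ⊢
    have : (16 : ℝ) ^ j = 4 ^ j * 4 ^ j := by rw [← mul_pow]; norm_num
    rw [this]; linarith
  refine (Real.volume_le_diam _).trans (Metric.ediam_le fun x hx y hy => ?_)
  rw [edist_dist, Real.dist_eq]
  apply ENNReal.ofReal_le_ofReal
  rcases le_total x y with h | h
  · rw [abs_sub_comm, abs_of_nonneg (by linarith)]; exact key x hx y hy h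
  · rw [abs_of_nonneg (by linarith)]; exact key y hy x hx h

theorem bad_total : volume (⋃ i : ℕ, ⋃ b ∈ Finset.range (2 * 8 ^ (i + 6)), bad (i + 6) b) ≤
    ENNReal.ofReal (1 / 16) := by
  refine (measure_iUnion_le _).trans ?_
  have : ∀ i : ℕ, volume (⋃ b ∈ Finset.range (2 * 8 ^ (i + 6)), bad (i + 6) b) ≤
      ENNReal.ofReal (1 / 32 * (1 / 2) ^ i) := by
    intro i
    refine (measure_biUnion_finset_le _ _).trans ?_
    refine (Finset.sum_le_sum fun b _ => bad_vol (i + 6) b (by omega)).trans ?_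
    rw [Finset.sum_const, Finset.card_range, nsmul_eq_mul, ← ENNReal.ofReal_natCast,
      ← ENNReal.ofReal_mul (by positivity)]
    apply ENNReal.ofReal_le_ofReal
    apply le_of_eq
    push_cast
    rw [show (16 : ℝ) ^ (i + 6) = 8 ^ (i + 6) * 2 ^ (i + 6) by rw [← mul_pow]; norm_num,
      one_div_pow]
    field_simp
    ring
  refine (ENNReal.tsum_le_tsum this).trans ?_
  rw [← ENNReal.ofReal_tsum_of_nonneg (fun _ => by positivity)
    (summable_geometric_two.mul_left _), tsum_mul_left, tsum_geometric_two]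
  norm_num

theorem result :
    ∃ (k : ℕ) (ρ : ℕ → ℝ), 1 ≤ k ∧ (∀ m, 0 ≤ ρ m) ∧
      ¬ Summable (fun m : ℕ => ρ (m + 1) / ((m + 1 : ℕ) : ℝ)) ∧
      0 < volume {θ : ℝ | 0 < θ ∧ (Sol k ρ θ).Finite} := by
  refine ⟨1, fun m => m * psi m, le_rfl, fun m => mul_nonneg (Nat.cast_nonneg _) (psi_nonneg m),
    ?_, ?_⟩
  · intro h
    apply not_summable
    rw [← summable_nat_add_iff 1]
    refine h.congr fun m => ?_
    have : ((m + 1 : ℕ) : ℝ) ≠ 0 := by positivity
    field_simp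
  set C : Set ℝ := range (fun p : ℕ × ℕ => Real.log p.2 / Real.log p.1) with hC
  have hC0 : volume C = 0 := (countable_range _).measure_zero _
  have hsub : Icc (1 / 4 : ℝ) (3 / 8) ⊆
      {θ : ℝ | 0 < θ ∧ (Sol 1 (fun m => m * psi m) θ).Finite} ∪
        ((⋃ i : ℕ, ⋃ b ∈ Finset.range (2 * 8 ^ (i + 6)), bad (i + 6) b) ∪ C) := by
    intro θ hθ
    by_contra hc
    simp only [mem_union, not_or, mem_iUnion, not_exists, mem_setOf_eq, not_and] at hc
    obtain ⟨h1, h2, h3⟩ := hc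
    have hθ0 : 0 < θ := by linarith [hθ.1]
    refine h1 hθ0 ((finite_singleton (fun _ => 1, 1)).subset ?_)
    rintro ⟨a, b⟩ ⟨ha, hb, hab⟩
    simp only [Finset.univ_unique, Finset.sup_singleton, Finset.sum_singleton, pow_one] at ha hb hab
    have hx1 := ha default
    have hae : a = fun _ => a default := funext fun i => by rw [Subsingleton.elim i default]
    generalize a default = x at *
    have hx0 : (0 : ℝ) < x := by exact_mod_cast hx1
    rw [mul_div_cancel_left₀ _ hx0.ne'] at hab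
    unfold psi at hab
    split_ifs at hab with hblk
    · exfalso
      obtain ⟨i, hi⟩ : ∃ i, Nat.log 256 x = i + 6 := ⟨Nat.log 256 x - 6, by omega⟩
      have hlo : 256 ^ (i + 6) ≤ x := hi ▸ Nat.pow_log_le_self 256 (by omega)
      rw [hi] at hblk hab
      set j := i + 6 with hj
      have hT : (0 : ℝ) < 256 ^ j := by positivity
      have hlo' : (256 : ℝ) ^ j ≤ x := by exact_mod_cast hlo
      have hhi' : (x : ℝ) ≤ 256 ^ j + 4 ^ j := by exact_mod_cast hblk.2.le
      obtain ⟨p1, p2⟩ := pow_bounds j hθ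
      have q1 : ((256 : ℝ) ^ j) ^ θ ≤ (x : ℝ) ^ θ := Real.rpow_le_rpow hT.le hlo' hθ0.le
      have q2 : (x : ℝ) ^ θ ≤ ((256 : ℝ) ^ j) ^ θ + 1 / 4 ^ j := by
        have e : (x : ℝ) ^ θ = ((256 : ℝ) ^ j) ^ θ * (x / 256 ^ j) ^ θ := by
          rw [← Real.mul_rpow hT.le (by positivity)]; congr 1; field_simp
        have r1 : (x / 256 ^ j : ℝ) ^ θ ≤ x / 256 ^ j :=
          Real.rpow_le_self_of_one_le (by rw [le_div_iff₀ hT]; linarith) (by linarith [hθ.2])
        have r2 : (x / 256 ^ j : ℝ) ≤ 1 + 1 / 64 ^ j := by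
          rw [div_le_iff₀ hT, show (256 : ℝ) ^ j = 64 ^ j * 4 ^ j by rw [← mul_pow]; norm_num]
            at *
          have : (1 + 1 / (64 : ℝ) ^ j) * (64 ^ j * 4 ^ j) = 64 ^ j * 4 ^ j + 4 ^ j := by
            field_simp
          linarith
        have r3 : ((256 : ℝ) ^ j) ^ θ * (1 / 64 ^ j) ≤ 1 / 4 ^ j := by
          refine (mul_le_mul_of_nonneg_right p2 (by positivity)).trans ?_
          rw [mul_one_div, div_le_div_iff₀ (by positivity) (by positivity), ← mul_pow, one_mul]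
          exact pow_le_pow_left₀ (by norm_num) (by norm_num) _
        have r4 := mul_le_mul_of_nonneg_left (r1.trans r2)
          (show 0 ≤ ((256 : ℝ) ^ j) ^ θ by positivity)
        rw [e]; linarith
      obtain ⟨s1, s2⟩ := abs_le.1 hab
      have h4 : (4 : ℝ) ^ 1 ≤ 4 ^ j := pow_le_pow_right₀ (by norm_num) (by omega)
      have h5 : (1 : ℝ) / 4 ^ j ≤ 1 / 4 := one_div_le_one_div_of_le (by norm_num) (by linarith)
      have h6 : (1 : ℝ) ≤ 8 ^ j := one_le_pow₀ (by norm_num)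
      have e2 : (2 : ℝ) / 4 ^ j = 1 / 4 ^ j + 1 / 4 ^ j := by ring
      refine h2 i b ?_ ⟨hθ, ?_⟩
      · rw [Finset.mem_range]
        have : (b : ℝ) < 2 * 8 ^ j := by linarith
        exact_mod_cast this
      · have : (0 : ℝ) ≤ 1 / 4 ^ j := by positivity
        rw [abs_le, e2]; constructor <;> linarith
    · have he : (x : ℝ) ^ θ = b := by simpa [sub_eq_zero] using hab
      rcases hx1.eq_or_lt with h | h
      · subst h
        have : b = 1 := by
          simp at he; exact_mod_cast he.symm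
        rw [hae, this]; rfl
      · exfalso
        refine h3 ⟨(x, b), ?_⟩
        have : Real.log x ≠ 0 := (Real.log_pos (by exact_mod_cast h)).ne'
        simp only [← he, Real.log_rpow hx0]
        field_simp
  by_contra h0
  have h0' := nonpos_iff_eq_zero.1 (not_lt.1 h0)
  have := (measure_mono (μ := volume) hsub).trans ((measure_union_le _ _).trans
    (add_le_add le_rfl (measure_union_le _ _)))
  rw [h0', hC0, zero_add, add_zero, Real.volume_Icc] at this
  have := (ENNReal.ofReal_le_ofReal_iff (by norm_num)).1 (this.trans bad_total)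
  norm_num at this

end Pool.Agent.Results.MP_33ac70_nt.Blocks
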